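import Mathlib

namespace Pool.Agent.Results.MP_dca5ce_ag.Q2a
open PowerSeries TensorProduct

lemma c1 (f g : ℚ⟦X⟧) : coeff 1 (f * g) = coeff 0 f * coeff 1 g + coeff 1 f * coeff 0 g := by
  simp [coeff_mul, Finset.Nat.antidiagonal_succ]

lemma c2 (f g : ℚ⟦X⟧) : coeff 2 (f * g) =
    coeff 0 f * coeff 2 g + coeff 1 f * coeff 1 g + coeff 2 f * coeff 0 g := by
  simp [coeff_mul, Finset.Nat.antidiagonal_succ, add_assoc]

def R : Subring ℚ⟦X⟧ where
  carrier := {f | coeff 1 f = 0 ∧ coeff 2 f = 0}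
  mul_mem' := by rintro f g ⟨a, b⟩ ⟨c, d⟩; exact ⟨by simp [c1, a, c], by simp [c2, a, b, c, d]⟩
  one_mem' := ⟨by simp [coeff_one], by simp [coeff_one]⟩
  add_mem' := by rintro f g ⟨a, b⟩ ⟨c, d⟩; exact ⟨by simp [a, c], by simp [b, d]⟩
  zero_mem' := ⟨by simp, by simp⟩
  neg_mem' := by rintro f ⟨a, b⟩; exact ⟨by simp [a], by simp [b]⟩

lemma mem3 {f : ℚ⟦X⟧} (h : X ^ 3 ∣ f) : f ∈ R :=
  ⟨X_pow_dvd_iff.1 h 1 (by omega), X_pow_dvd_iff.1 h 2 (by omega)⟩

lemma dvd3 (f : R) (h : coeff 0 f.1 = 0) : X ^ 3 ∣ f.1 := by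
  rw [X_pow_dvd_iff]
  intro m hm
  interval_cases m
  · exact h
  · exact f.2.1
  · exact f.2.2

lemma unit (f : R) (h : coeff 0 f.1 ≠ 0) : IsUnit f := by
  have e : f.1 * f.1⁻¹ = 1 := PowerSeries.mul_inv_cancel _ (by simpa using h)
  have e1 := c1 f.1 f.1⁻¹
  have e2 := c2 f.1 f.1⁻¹
  rw [e, f.2.1] at e1 e2
  rw [f.2.2] at e2
  simp only [coeff_one, zero_mul, add_zero] at e1 e2
  exact IsUnit.of_mul_eq_one ⟨f.1⁻¹, (mul_eq_zero.1 e1.symm).resolve_left h,
    (mul_eq_zero.1 e2.symm).resolve_left h⟩ (Subtype.ext e)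

lemma nunit (f : R) (h : coeff 0 f.1 = 0) : ¬ IsUnit f := by
  intro hu
  have := isUnit_iff_constantCoeff.1 (hu.map R.subtype)
  simp only [Subring.subtype_apply, ← coeff_zero_eq_constantCoeff_apply, h] at this
  exact not_isUnit_zero this

instance : IsLocalRing R := IsLocalRing.of_isUnit_or_isUnit_one_sub_self fun a => by
  by_cases h : coeff 0 a.1 = 0
  · exact Or.inr (unit _ (by simp at h; simp [h]))
  · exact Or.inl (unit _ h)

noncomputable def ex : ℚ⟦X⟧ →+* R := (expand 3 (by norm_num) (R := ℚ)).toRingHom.codRestrict R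
  fun _ => ⟨coeff_expand_of_not_dvd _ _ _ (by norm_num), coeff_expand_of_not_dvd _ _ _ (by norm_num)⟩

noncomputable def x (i : ℕ) : R := ⟨X ^ (3 + i), mem3 (pow_dvd_pow _ (by omega))⟩

instance : IsNoetherianRing R := by
  letI := ex.toAlgebra
  haveI : Module.Finite ℚ⟦X⟧ R := by
    classical
    refine ⟨⟨{1, x 1, x 2}, ?_⟩⟩
    rw [eq_top_iff]
    intro f _
    have : f = (mk fun n => coeff (3 * n) f.1) • (1 : R) + (mk fun n => coeff (3 * n + 4) f.1) • x 1 +
        (mk fun n => coeff (3 * n + 5) f.1) • x 2 := by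
      apply Subtype.ext
      show f.1 = expand 3 _ _ * 1 + expand 3 _ _ * X ^ (3 + 1) + expand 3 _ _ * X ^ (3 + 2)
      ext n
      simp only [map_add, mul_one, coeff_mul_X_pow', coeff_expand, coeff_mk]
      have h1 := f.2.1
      have h2 := f.2.2
      split_ifs <;> first
        | omega
        | (simp only [add_zero, zero_add]; first
            | (congr 2; omega)
            | (obtain rfl | rfl : n = 1 ∨ n = 2 := by omega
               all_goals assumption))
    rw [this]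
    refine add_mem (add_mem ?_ ?_) ?_ <;> refine Submodule.smul_mem _ _ (Submodule.subset_span ?_) <;>
      simp
  exact Algebra.FiniteType.isNoetherianRing ℚ⟦X⟧ R

lemma dim : ringKrullDim R = 1 := by
  rw [ringKrullDim_eq_one_iff_of_isLocalRing_isDomain]
  constructor
  · intro h
    have h0 : x 0 ≠ 0 := fun e => by
      have := congrArg Subtype.val e
      simp [x] at this
    obtain ⟨b, hb⟩ := h.mul_inv_cancel h0
    exact nunit (x 0) (by simp [x]) (IsUnit.of_mul_eq_one b hb)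
  · intro a ha y hy
    have hy0 : coeff 0 y.1 = 0 := by
      by_contra h; exact hy (unit y h)
    obtain ⟨z, hz⟩ := dvd3 y hy0
    have ha' : a.1 ≠ 0 := fun e => ha (Subtype.ext e)
    obtain ⟨u, hu⟩ := (isUnit_divided_by_X_pow_order ha').exists_right_inv
    have e := X_pow_order_mul_divXPowOrder (f := a.1)
    generalize a.1.order.toNat = m at e
    refine ⟨m + 1, Ideal.mem_span_singleton'.2 ⟨⟨X ^ 3 * (X ^ (2 * m) * z ^ (m + 1) * u),
      mem3 (dvd_mul_right _ _)⟩, Subtype.ext ?_⟩⟩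
    show X ^ 3 * (X ^ (2 * m) * z ^ (m + 1) * u) * a.1 = y.1 ^ (m + 1)
    rw [hz, ← e]
    linear_combination (X ^ 3 * X ^ (2 * m) * z ^ (m + 1) * X ^ m) * hu

noncomputable def ψ (i : Fin 3) : (Fin 3 → R) →ₗ[R] ℚ⟦X⟧ where
  toFun v := (v i).1 - X ^ i.1 * (v 0).1
  map_add' v w := by simp; ring
  map_smul' r v := by simp [Subring.smul_def]; ring

noncomputable def N : Submodule R (Fin 3 → R) := ⨅ i, LinearMap.ker (ψ i)

lemma memN {v : Fin 3 → R} : v ∈ N ↔ ∀ i, (v i).1 = X ^ i.1 * (v 0).1 := by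
  simp [N, ψ, sub_eq_zero]

abbrev M := (Fin 3 → R) ⧸ N

noncomputable def φ (i : Fin 3) : M →ₗ[R] ℚ⟦X⟧ := N.liftQ (ψ i) (iInf_le _ i)

noncomputable def e (i : Fin 3) : M := N.mkQ (Pi.single i 1)

lemma mk_eq (v : Fin 3 → R) : N.mkQ v = ∑ i, v i • e i := by
  conv_lhs => rw [pi_eq_sum_univ' v]
  simp only [map_sum, map_smul, e]

noncomputable def Ψ (a b : Fin 3) : M ⊗[R] M →ₗ[R] ℚ⟦X⟧ :=
  (LinearMap.mul' R ℚ⟦X⟧).comp (TensorProduct.map (φ a) (φ b))

noncomputable def Φ (y : Fin 3 → Fin 3 → R) : M ⊗[R] M := ∑ i, ∑ j, y i j • (e i ⊗ₜ[R] e j)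

lemma Φ_add (y z : Fin 3 → Fin 3 → R) : Φ (y + z) = Φ y + Φ z := by
  simp only [Φ, Pi.add_apply, add_smul, Finset.sum_add_distrib]

lemma Φ_surj (z : M ⊗[R] M) : ∃ y, Φ y = z := by
  induction z with
  | zero => exact ⟨0, by simp [Φ]⟩
  | tmul a b =>
    obtain ⟨v, rfl⟩ := N.mkQ_surjective a
    obtain ⟨w, rfl⟩ := N.mkQ_surjective b
    refine ⟨fun i j => v i * w j, ?_⟩
    simp only [Φ, mk_eq, sum_tmul, tmul_sum, smul_tmul_smul]
    exact Finset.sum_comm
  | add a b ha hb =>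
    obtain ⟨y, rfl⟩ := ha
    obtain ⟨z, rfl⟩ := hb
    exact ⟨y + z, Φ_add y z⟩

lemma ΨΦ (a b : Fin 3) (y : Fin 3 → Fin 3 → R) : Ψ a b (Φ y) =
    (y a b).1 - X ^ a.1 * (y 0 b).1 - X ^ b.1 * (y a 0).1 + X ^ a.1 * X ^ b.1 * (y 0 0).1 := by
  have h : ∀ a i, φ a (e i) = (if a = i then 1 else 0) - X ^ a.1 * (if 0 = i then 1 else 0) := by
    intro a i
    show ((Pi.single i (1 : R) : Fin 3 → R) a).1 - X ^ a.1 * ((Pi.single i (1 : R) : Fin 3 → R) 0).1 = _
    simp only [Pi.single_apply]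
    split_ifs <;> rfl
  simp only [Φ, Ψ, map_sum, map_smul, LinearMap.comp_apply, map_tmul, LinearMap.mul'_apply, h,
    Subring.smul_def, smul_eq_mul, mul_sub, sub_mul, Finset.sum_sub_distrib, mul_ite, ite_mul,
    mul_one, mul_zero, zero_mul, one_mul, Finset.sum_ite_eq, Finset.mem_univ, if_true]
  ring

lemma inj (z : M ⊗[R] M) (h : ∀ a b, Ψ a b z = 0) : z = 0 := by
  obtain ⟨y, rfl⟩ := Φ_surj z
  simp only [ΨΦ] at h
  have k : ∀ (a b : Fin 3) (n : ℕ), coeff n (y a b).1 - coeff n (X ^ a.1 * (y 0 b).1) -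
      coeff n (X ^ b.1 * (y a 0).1) + coeff n (X ^ (a.1 + b.1) * (y 0 0).1) = 0 := by
    intro a b n
    have := congrArg (coeff n) (h a b)
    simpa only [map_add, map_sub, map_zero, ← pow_add] using this
  have k1 := k 1 1 2
  have k2 := k 1 2 1
  have k3 := k 1 2 2
  have k4 := k 2 1 1
  have k5 := k 2 1 2
  have m1 := fun i j => (y i j).2.1
  have m2 := fun i j => (y i j).2.2
  simp only [coeff_X_pow_mul'] at k1 k2 k3 k4 k5
  norm_num [m1, m2] at k1 k2 k3 k4 k5
  have r0 : ∀ j, X ^ 3 ∣ (y 0 j).1 := by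
    intro j; apply dvd3; fin_cases j <;> simpa
  have r1 : ∀ j, X ^ 3 ∣ (y j 0).1 := by
    intro j; apply dvd3; fin_cases j <;> simpa
  let p : Fin 3 → Fin 3 → R := fun i j => ⟨X ^ i.1 * (y 0 j).1, mem3 ((r0 j).mul_left _)⟩
  let q : Fin 3 → Fin 3 → R := fun i j => ⟨X ^ j.1 * ((y i 0).1 - X ^ i.1 * (y 0 0).1),
    mem3 (((r1 i).sub ((r0 0).mul_left _)).mul_left _)⟩
  have hy : y = p + q := by
    funext i j
    apply Subtype.ext
    show (y i j).1 = X ^ i.1 * (y 0 j).1 + X ^ j.1 * ((y i 0).1 - X ^ i.1 * (y 0 0).1)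
    linear_combination h i j
  have hp : Φ p = 0 := by
    rw [Φ, Finset.sum_comm]
    refine Finset.sum_eq_zero fun j _ => ?_
    simp only [smul_tmul', ← sum_tmul]
    rw [← mk_eq fun i => p i j, Submodule.mkQ_apply, (Submodule.Quotient.mk_eq_zero N).2, zero_tmul]
    exact memN.2 fun i => by simp [p]
  have hq : Φ q = 0 := by
    refine Finset.sum_eq_zero fun i _ => ?_
    simp only [← tmul_smul, ← tmul_sum]
    rw [← mk_eq fun j => q i j, Submodule.mkQ_apply, (Submodule.Quotient.mk_eq_zero N).2, tmul_zero]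
    exact memN.2 fun j => by simp [q]
  rw [hy, Φ_add, hp, hq, add_zero]

lemma cancel {T : Type} [AddCommGroup T] [Module R T] (f : T →ₗ[R] ℚ⟦X⟧) {z : T}
    (h : z ∈ Submodule.torsion R T) : f z = 0 := by
  obtain ⟨⟨r, hr⟩, h⟩ := h
  have : r.1 * f z = 0 := by
    have := congrArg f h
    simpa [Subring.smul_def] using this
  exact (mul_eq_zero.1 this).resolve_left fun e => nonZeroDivisors.ne_zero hr (Subtype.ext e)

theorem result : ∃ (R : Type) (_ : CommRing R) (_ : IsDomain R) (_ : IsNoetherianRing R)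
    (_ : IsLocalRing R), ringKrullDim R = 1 ∧
    ∃ (M : Type) (_ : AddCommGroup M) (_ : Module R M), Module.Finite R M ∧
      Submodule.torsion R M = ⊥ ∧ ¬ Module.Free R M ∧ Submodule.torsion R (M ⊗[R] M) = ⊥ := by
  refine ⟨R, inferInstance, inferInstance, inferInstance, inferInstance, dim, M, inferInstance,
    inferInstance, inferInstance, ?_, fun hf => ?_, ?_⟩
  · rw [eq_bot_iff]
    intro z hz
    obtain ⟨v, rfl⟩ := N.mkQ_surjective z
    exact (Submodule.Quotient.mk_eq_zero N).2 (memN.2 fun i => sub_eq_zero.1 (cancel (φ i) hz))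
  · obtain ⟨s, hs⟩ := Module.projective_lifting_property N.mkQ LinearMap.id N.mkQ_surjective
    have h1 : ∀ i, X ^ 3 ∣ ((Pi.single i 1 - s (e i) : Fin 3 → R) 0).1 := by
      intro i
      have : (Pi.single i 1 - s (e i) : Fin 3 → R) ∈ N := by
        rw [← Submodule.Quotient.mk_eq_zero, ← Submodule.mkQ_apply, map_sub,
          show N.mkQ (s (e i)) = e i from LinearMap.congr_fun hs _]
        exact sub_self _
      apply dvd3
      have h2 := ((Pi.single i 1 - s (e i) : Fin 3 → R) 1).2.1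
      rw [memN.1 this 1] at h2
      simpa [coeff_X_pow_mul'] using h2
    have h2 : ∑ i : Fin 3, x i • s (e i) = 0 := by
      simp only [← map_smul, ← map_sum]
      rw [← mk_eq fun i => x i, Submodule.mkQ_apply, (Submodule.Quotient.mk_eq_zero N).2, map_zero]
      exact memN.2 fun i => by simp [x, pow_add, mul_comm]
    have h3 := congrArg (fun v : Fin 3 → R => (v 0).1) h2
    have a0 := h1 0
    have a1 := h1 1
    have a2 := h1 2
    simp [Fin.sum_univ_three, x] at h3 a0 a1 a2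
    have h4 : (X : ℚ⟦X⟧) ^ 3 * ((s (e 0) 0).1 + X * (s (e 1) 0).1 + X ^ 2 * (s (e 2) 0).1) = 0 := by
      linear_combination h3
    have h5 := (mul_eq_zero.1 h4).resolve_left (by simp)
    have h6 : (X : ℚ⟦X⟧) ^ 3 ∣ 1 := by
      have := (a0.sub (a1.mul_left X)).sub (a2.mul_left (X ^ 2))
      convert this using 1
      linear_combination h5
    simpa using X_pow_dvd_iff.1 h6 0 (by omega)
  · rw [eq_bot_iff]
    exact fun z hz => inj z fun a b => cancel _ hz

end Pool.Agent.Results.MP_dca5ce_ag.Q2a
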